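import Pool.Agent.R858.BN11

/-!
# MP_eed2ef_ag, Q1 is false: `M^r_{g,d} ⊆ M^s_{g,d-2r+2s}` below Castelnuovo's bound

Let `π(d, r) = ∑_{k ≥ 1} max (0, d - 1 - k (r - 1))` be Castelnuovo's bound for the genus of a
nondegenerate curve of degree `d` in `P^r`. If `π(d, r) < g`, then every `g^r_d` on a curve of genus `g`
is composed with a covering and `M^r_{g,d} ⊆ M^s_{g,d-2(r-s)}` for all `s ≤ r`. The bound of Q1 is
`e < d - 2 r + 2 + s + ⌊(r - 1) / 2⌋`, and `e = d - 2 r + 2 s` satisfies it if and only if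
`s ≤ ⌊(r + 1) / 2⌋`.

Curves are given by their function fields, see `Pool/Agent/Helper395/CS/Defs.lean`.
-/

namespace Pool.Agent.Results.MP_eed2ef_ag.SeriesContainment

open Pool.Agent.Helper395.CS hiding genus
open Pool.Agent.Helper395.BC
open Pool.Agent.R858.BN

/-- The curve with function field `K` has a `g^r_d`: there is a line bundle `L` of degree `d` with
`h⁰(L) ≥ r + 1`. -/
def HasSeries (K : Type) [Field K] [Algebra ℂ K] (r d : ℤ) : Prop :=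
  ∃ L : LineBundle K, L.degree = d ∧ r + 1 ≤ Module.finrank ℂ (H0 L)

/-- `M^r_{g,d} ⊆ M^s_{g,e}`: every curve of genus `g` with a `g^r_d` has a `g^s_e`. -/
def Contained (g : ℕ) (r d s e : ℤ) : Prop :=
  ∀ (K : Type) [Field K] [Algebra ℂ K], IsCurve K → genus K = g → HasSeries K r d → HasSeries K s e

/-- the Brill–Noether number -/
def rho (g : ℕ) (r d : ℤ) : ℤ := g - (r + 1) * (g - d + r)

/-- `M^r_{g,d}` is a Brill–Noether locus in the sense of the problem: `r ≥ 1`, `ρ(g, r, d) < 0` and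
`M^r_{g,d}` is not empty. -/
def IsLocus (g : ℕ) (r d : ℤ) : Prop :=
  1 ≤ r ∧ rho g r d < 0 ∧
    ∃ (K : Type) (_ : Field K) (_ : Algebra ℂ K), IsCurve K ∧ genus K = g ∧ HasSeries K r d

/-- Castelnuovo's number `π(d, r) = ∑_{k ≥ 1} max (0, d - 1 - k (r - 1))` (for `r ≥ 2` the summands with
`k > d` vanish) -/
def castelnuovoNumber (d r : ℕ) : ℕ := ∑ k ∈ Finset.range d, (d - 1 - (k + 1) * (r - 1))

/-- The statement to be proved or disproved. -/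
def Q1 : Prop := ∃ g₀ : ℕ, ∀ g : ℕ, g₀ ≤ g → ∀ r s d e : ℤ, d ≤ g - 1 → e ≤ g - 1 → s + 1 ≤ r →
  3 ≤ s + 1 → IsLocus g r d → IsLocus g s e → e < d - 2 * r + 2 + s + (r - 1) / 2 →
  ¬ Contained g r d s e

theorem contained {g r s d : ℕ} (hr : 2 ≤ r) (hsr : s ≤ r) (hc : castelnuovoNumber d r < g) :
    Contained g r d s (d - 2 * (r - s)) := by
  intro K _ _ hK hKg hL
  obtain ⟨L, hLd, hLr⟩ := hL
  have hg0 : genus K ≠ 0 := by omega
  obtain ⟨M, hM1, hM2⟩ := composed' hK hg0 (L := L) (r := r) (d := d) hr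
    (by change r + 1 ≤ Module.finrank ℂ (H0 L); omega) hLd (by rw [hKg]; exact hc) (r - s)
  change r + 1 ≤ Module.finrank ℂ (H0 M) + (r - s) at hM2
  exact ⟨M, by rw [hM1, hLd]; omega, by omega⟩

/-- (1) `M^r_{g,d} ⊆ M^s_{g,d-2(r-s)}` if `r ≥ 2`, `s ≤ r` and `π(d, r) < g`.
(2) If moreover `r ≥ 3`, `2 ≤ s ≤ (r + 1) / 2` and `2 r ≤ d ≤ g - 1`, then all conditions of Q1 are
satisfied by `r`, `s`, `d` and `e = d - 2 r + 2 s`, and `M^r_{g,d} ⊆ M^s_{g,e}`.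
(3) The condition `π(d, r) < g` holds if `2 r ≤ d ≤ 3 r - 2` and `d ≤ g - 1`.
(4) Q1 is false. -/
theorem result :
    (∀ g r d s : ℕ, 2 ≤ r → s ≤ r → castelnuovoNumber d r < g →
      Contained g r d s (d - 2 * (r - s))) ∧
    (∀ g r d s : ℕ, 3 ≤ r → 2 ≤ s → 2 * s ≤ r + 1 → 2 * r ≤ d → d < g →
      castelnuovoNumber d r < g →
      (d : ℤ) ≤ g - 1 ∧ (d - 2 * r + 2 * s : ℤ) ≤ g - 1 ∧ (s + 1 : ℤ) ≤ r ∧ (3 : ℤ) ≤ s + 1 ∧
      IsLocus g r d ∧ IsLocus g s (d - 2 * r + 2 * s) ∧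
      (d - 2 * r + 2 * s : ℤ) < d - 2 * r + 2 + s + (r - 1) / 2 ∧
      Contained g r d s (d - 2 * r + 2 * s)) ∧
    (∀ g r d : ℕ, 2 ≤ r → 2 * r ≤ d → d ≤ 3 * r - 2 → d < g → castelnuovoNumber d r < g) ∧
    ¬ Q1 := by
  have main : ∀ g r d s : ℕ, 3 ≤ r → 2 ≤ s → 2 * s ≤ r + 1 → 2 * r ≤ d → d < g →
      castelnuovoNumber d r < g →
      (d : ℤ) ≤ g - 1 ∧ (d - 2 * r + 2 * s : ℤ) ≤ g - 1 ∧ (s + 1 : ℤ) ≤ r ∧ (3 : ℤ) ≤ s + 1 ∧
      IsLocus g r d ∧ IsLocus g s (d - 2 * r + 2 * s) ∧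
      (d - 2 * r + 2 * s : ℤ) < d - 2 * r + 2 + s + (r - 1) / 2 ∧
      Contained g r d s (d - 2 * r + 2 * s) := by
    intro g r d s hr hs hsr hd hdg hc
    refine ⟨by omega, by omega, by omega, by omega, ⟨by omega, rho_neg hr hd hdg hc, ?_⟩,
      ⟨by omega, rho_neg' hr hd hdg hc hs hsr, ?_⟩, by omega, ?_⟩
    · obtain ⟨K, i1, i2, hK, hKg, L, hL1, hL2⟩ := exists_hyp_series g r (by omega) d (by omega)
      exact ⟨K, i1, i2, hK, hKg, L, hL1, by omega⟩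
    · obtain ⟨K, i1, i2, hK, hKg, L, hL1, hL2⟩ := exists_hyp_series g s (by omega)
        (d - 2 * r + 2 * s) (by omega)
      exact ⟨K, i1, i2, hK, hKg, L, hL1, by omega⟩
    · have := contained (g := g) (r := r) (s := s) (d := d) (by omega) (by omega) hc
      have h : ((d : ℤ) - 2 * ((r : ℤ) - (s : ℤ))) = d - 2 * r + 2 * s := by ring
      rwa [h] at this
  have small : ∀ g r d : ℕ, 2 ≤ r → 2 * r ≤ d → d ≤ 3 * r - 2 → d < g →
      castelnuovoNumber d r < g := fun g r d hr hd hd' hdg => (castel_small hr hd hd').trans hdg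
  refine ⟨fun g r d s hr hs hc => contained hr hs hc, main, small, ?_⟩
  rintro ⟨g₀, h⟩
  have h7 : 7 ≤ max g₀ 7 := le_max_right _ _
  obtain ⟨h1, h2, h3, h4, h5, h6, h8, h9⟩ := main (max g₀ 7) 3 6 2 (by norm_num) (by norm_num)
    (by norm_num) (by norm_num) (by omega)
    (small _ _ _ (by norm_num) (by norm_num) (by norm_num) (by omega))
  exact h (max g₀ 7) (le_max_left _ _) 3 2 6 _ h1 h2 h3 h4 h5 h6 h8 h9

end Pool.Agent.Results.MP_eed2ef_ag.SeriesContainment
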